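import Pool.Agent.Helper52_ABA.LStmts

/-!
# ABL, module NSX: minimal pinch-free closed paths bound nonsingular discs
-/

set_option autoImplicit false

namespace Pool.Agent.ABA.B.H10

open Pool.Agent.ABA.B Pool.Agent.ABA.B.TG

variable {V E : Type} {S : TG V E}

theorem isP_eq_of_ne {p : List E} (hp : p ≠ []) {x y x' y' : V} (h : S.IsP x p y)
    (h' : S.IsP x' p y') : x = x' ∧ y = y' := by
  cases p with
  | nil => exact absurd rfl hp
  | cons c w =>
    have hx : x = x' := IsP.src_eq h h'
    subst hx
    exact ⟨rfl, IsP.eq h h'⟩

theorem cl_cons {c : E} {w : List E} (h : S.Cl (c :: w)) : S.IsP (S.src c) (c :: w) (S.src c) := by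
  obtain ⟨x, hx⟩ := h
  have h1 : S.src c = x := hx.1
  rw [h1]; exact hx

/-- the complement of a closed block -/
theorem cl_compl {p₁ p p₂ : List E} (h : S.Cl (p₁ ++ p ++ p₂)) (hp : S.Cl p) :
    S.Cl (p₁ ++ p₂) := by
  by_cases hne : p = []
  · subst hne; simpa using h
  obtain ⟨x, hx⟩ := h
  rw [isP_append] at hx
  obtain ⟨z', hz', h2⟩ := hx
  rw [isP_append] at hz'
  obtain ⟨z, h0, h1⟩ := hz'
  obtain ⟨y, hy⟩ := hp
  obtain ⟨e1, e2⟩ := isP_eq_of_ne hne h1 hy
  subst e1
  subst e2
  exact ⟨x, isP_append.2 ⟨_, h0, h2⟩⟩

theorem cl_rot {p q : List E} (h : S.Cl (p ++ q)) : S.Cl (q ++ p) := by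
  obtain ⟨x, hx⟩ := h
  rw [isP_append] at hx
  obtain ⟨z, h0, h1⟩ := hx
  exact ⟨z, isP_append.2 ⟨_, h1, h0⟩⟩

theorem cl_tri {e e' e'' : E} (ht : S.Tri e e' e'') {a b : List E} (h : S.Cl (a ++ e :: b)) :
    S.Cl (a ++ e' :: e'' :: b) := by
  obtain ⟨x, hx⟩ := h
  rw [isP_append] at hx
  obtain ⟨z, h0, h1⟩ := hx
  refine ⟨x, isP_append.2 ⟨z, h0, ?_⟩⟩
  refine ⟨(Tri.src' ht).trans h1.1, Tri.mid' ht, ?_⟩
  rw [Tri.tgt' ht]
  exact h1.2

theorem cl_tri' {e e' e'' : E} (ht : S.Tri e e' e'') {a b : List E}
    (h : S.Cl (a ++ e' :: e'' :: b)) : S.Cl (a ++ e :: b) := by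
  obtain ⟨x, hx⟩ := h
  rw [isP_append] at hx
  obtain ⟨z, h0, h1⟩ := hx
  refine ⟨x, isP_append.2 ⟨z, h0, ?_⟩⟩
  refine ⟨(Tri.src' ht).symm.trans h1.1, ?_⟩
  rw [← Tri.tgt' ht]
  exact h1.2.2

/-- pinch-freeness is invariant under rotation by one letter -/
theorem pf_rot (hA3 : ∀ α β, S.Cl (α ++ β) → S.ar (α ++ β) = S.ar (β ++ α)) {c : E} {w : List E}
    (hc : S.Cl (c :: w)) (h : S.PF (c :: w)) : S.PF (w ++ [c]) := by
  intro p₁ p p₂ hw hp hne hcl
  have hrot : S.ar (c :: w) = S.ar (w ++ [c]) := by
    have := hA3 [c] w (by simpa using hc)
    simpa using this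
  rcases List.eq_nil_or_concat p₂ with h2 | ⟨p₂', d, h2⟩
  · subst h2
    rcases List.eq_nil_or_concat p with h3 | ⟨p', d, h3⟩
    · exact absurd h3 hp
    · subst h3
      have h4 : w ++ [c] = (p₁ ++ p') ++ [d] := by rw [hw]; simp
      obtain ⟨h5, h6⟩ := List.append_inj' h4 rfl
      simp only [List.cons.injEq, and_true] at h6
      subst h6
      subst h5
      have hp1 : p₁ ≠ [] := by simpa using hne
      have hcl' : S.Cl (p₁ ++ (p' ++ [c]) ++ []) := by
        have := cl_rot (p := [c]) (q := p₁ ++ p') (by simpa using hc)
        simpa using this
      have hc1 : S.Cl p₁ := by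
        have := cl_compl hcl' (by simpa using hcl)
        simpa using this
      have h7 := h [c] p₁ p' (by simp) hp1 (by simp) hc1
      have h8 : S.ar (c :: p') = S.ar (p' ++ [c]) := by
        have h9 : S.Cl (c :: p') := by
          have := cl_rot (p := p') (q := [c]) (by simpa using hcl)
          simpa using this
        have := hA3 [c] p' (by simpa using h9)
        simpa using this
      rw [hrot] at h7
      simp only [List.append_nil, List.cons_append, List.nil_append, List.concat_eq_append]
        at h7 ⊢
      omega
  · subst h2
    have h4 : w ++ [c] = (p₁ ++ p ++ p₂') ++ [d] := by rw [hw]; simp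
    obtain ⟨h5, h6⟩ := List.append_inj' h4 rfl
    simp only [List.cons.injEq, and_true] at h6
    subst h6
    subst h5
    have h7 := h (c :: p₁) p p₂' (by simp) hp (by simp) hcl
    have h8 : S.Cl (c :: (p₁ ++ p₂')) := by
      have := cl_compl (p₁ := c :: p₁) (p := p) (p₂ := p₂') (by simpa using hc) hcl
      simpa using this
    have h9 : S.ar (c :: (p₁ ++ p₂')) = S.ar (p₁ ++ p₂' ++ [c]) := by
      have := hA3 [c] (p₁ ++ p₂') (by simpa using h8)
      simpa using this
    rw [hrot] at h7
    simp only [List.cons_append, List.append_assoc, List.concat_eq_append] at h7 h9 ⊢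
    omega

/-- a word starting with `c` which is not pinch-free has a pinch behind `c` -/
theorem pinch_of_not_pf {c : E} {w : List E} (hc : S.Cl (c :: w)) (h : ¬ S.PF (c :: w)) :
    (∃ r₁ r r₂, w = r₁ ++ r ++ r₂ ∧ r ≠ [] ∧ S.Cl r ∧
      S.ar r + S.ar (c :: (r₁ ++ r₂)) ≤ S.ar (c :: w)) := by
  unfold PF at h
  push Not at h
  obtain ⟨p₁, p, p₂, hw, hp, hne, hcl, har⟩ := h
  cases p₁ with
  | nil =>
    cases p with
    | nil => exact absurd rfl hp
    | cons d p' =>
      simp only [List.nil_append, List.cons_append, List.cons.injEq] at hw
      obtain ⟨h1, h2⟩ := hw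
      subst h1
      subst h2
      have hcl2 : S.Cl p₂ := by
        have := cl_compl (p₁ := []) (p := c :: p') (p₂ := p₂) (by simpa using hc) hcl
        simpa using this
      refine ⟨p', p₂, [], by simp, by simpa using hne, hcl2, ?_⟩
      simp only [List.nil_append, List.append_nil] at har ⊢
      omega
  | cons d q =>
    simp only [List.cons_append, List.cons.injEq] at hw
    obtain ⟨h1, h2⟩ := hw
    subst h1
    exact ⟨q, p, p₂, h2, hp, hcl, by simpa using har⟩

theorem nsx (_hI : InsStmt) (_hR : RotStmt) (hA : AreaStmt) (hB : NsBasicStmt) : NsxStmt := by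
  intro V E S hSC
  obtain ⟨A1, A2, A3, -, A5, -, -, A8⟩ := hA V E S hSC
  have main : ∀ n : ℕ, ∀ (e : E) (α : List E), S.ar (S.inv e :: α) = n →
      S.Cl (S.inv e :: α) → S.PF (S.inv e :: α) →
      ∃ X Y J I, S.NS e α n X Y J I := by
    intro n
    induction n using Nat.strong_induction_on with
    | _ n ih =>
      intro e α hn hcl hpf
      have hP := cl_cons hcl
      have hD := A1 _ _ hP
      obtain ⟨-, hbr | htri⟩ := D.cases' hD
      · -- a bridge
        obtain ⟨b, a, m, k, hα, hmk, h1, h2⟩ := hbr
        rw [S.inv_inv] at hα
        subst hα
        have hb : b = [] := by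
          by_contra hb
          have h3 := hpf [S.inv e] b (e :: a) (by simp) hb (by simp) ⟨_, h1.isP⟩
          have h4 : S.ar b ≤ m := A2 _ _ _ h1
          have h5 : S.ar ([S.inv e] ++ e :: a) ≤ k := by
            have h6 := D.br (e := S.inv e) (D.nil _) h2
            rw [S.inv_inv] at h6
            simpa using A2 _ _ _ h6
          omega
        subst hb
        have ha : a = [] := by
          by_contra ha
          have h3 := hpf [S.inv e, e] a [] (by simp) ha (by simp) ⟨_, h2.isP⟩
          have h4 : S.ar a ≤ k := A2 _ _ _ h2
          have h5 : S.ar ([S.inv e, e] ++ []) ≤ m := by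
            have h6 := D.br (e := S.inv e) h1 (D.nil _)
            rw [S.inv_inv] at h6
            simpa using A2 _ _ _ h6
          omega
        subst ha
        have hm : m = 0 := h1.nil'
        have hk : k = 0 := h2.nil'
        have hn0 : n = 0 := by omega
        subst hn0
        exact ⟨_, _, _, _, NS.triv e⟩
      · obtain ⟨f', f'', m, hm, ht, hDu⟩ := htri
        obtain ⟨e'', rfl⟩ : ∃ e'', f' = S.inv e'' := ⟨S.inv f', by simp⟩
        obtain ⟨e', rfl⟩ : ∃ e', f'' = S.inv e' := ⟨S.inv f'', by simp⟩
        have ht' : S.Tri e e' e'' := by
          have h1 := S.tri_rot (S.tri_swap ht)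
          simpa using h1
        have hclu : S.Cl (S.inv e'' :: S.inv e' :: α) := ⟨_, hDu.isP⟩
        have hle : ∀ β, S.Cl (S.inv e :: β) →
            S.ar (S.inv e :: β) ≤ S.ar (S.inv e'' :: S.inv e' :: β) + 1 := by
          intro β hβ
          have := (A8 [] β _ _ _ ht (by simpa using hβ)).1
          simpa using this
        have hu : S.ar (S.inv e'' :: S.inv e' :: α) = m := by
          have h1 := A2 _ _ _ hDu
          have h2 := hle α hcl
          omega
        have hα : α ≠ [] := by
          rintro rfl
          exact D.not_single hD
        by_cases hpu : S.PF (S.inv e'' :: S.inv e' :: α)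
        · -- a triangle behind which the disc is nonsingular
          have h1 := pf_rot A3 hclu hpu
          have hclu' : S.Cl (S.inv e' :: (α ++ [S.inv e''])) := by
            have := cl_rot (p := [S.inv e'']) (q := S.inv e' :: α) (by simpa using hclu)
            simpa using this
          have h2 : S.ar (S.inv e' :: (α ++ [S.inv e''])) = m := by
            have := A3 [S.inv e''] (S.inv e' :: α) (by simpa using hclu)
            rw [← hu]
            simpa using this.symm
          obtain ⟨X, Y, J, I, hNS⟩ := ih m (by omega) e' (α ++ [S.inv e'']) h2 hclu'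
            (by simpa using h1)
          obtain ⟨-, -, -, hJ, -⟩ := hB V E S _ _ _ _ _ _ _ hNS
          rcases List.eq_nil_or_concat J with hJ0 | ⟨J', v, hJ'⟩
          · exfalso
            subst hJ0
            simp only [List.length_append, List.length_cons, List.length_nil] at hJ
            exact hα (List.length_eq_zero_iff.1 (by omega))
          · rw [List.concat_eq_append] at hJ'
            subst hJ'
            have h3 : n = m + 1 := by omega
            subst h3
            exact ⟨_, _, _, _, NS.ta ht' hNS hα⟩
        · -- the disc behind the triangle has a pinch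
          unfold PF at hpu
          push Not at hpu
          obtain ⟨p₁, p, p₂, hw, hp, hne, hclp, har⟩ := hpu
          rw [hu] at har
          rcases p₁ with _ | ⟨d, p₁⟩
          · rcases p with _ | ⟨d, p⟩
            · exact absurd rfl hp
            simp only [List.nil_append, List.cons_append, List.cons.injEq] at hw
            obtain ⟨h1, hw⟩ := hw
            subst h1
            rcases p with _ | ⟨d, p⟩
            · exfalso
              exact D.not_single (A1 _ _ (cl_cons hclp))
            simp only [List.cons_append, List.cons.injEq] at hw
            obtain ⟨h1, hw⟩ := hw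
            subst h1
            subst hw
            exfalso
            have hcl2 : S.Cl p₂ := by
              have := cl_compl (p₁ := []) (p := S.inv e'' :: S.inv e' :: p) (p₂ := p₂)
                (by simpa using hclu) hclp
              simpa using this
            have hclp' : S.Cl (S.inv e :: p) := by
              have := cl_tri' ht (a := []) (b := p) (by simpa using hclp)
              simpa using this
            have h3 := hpf (S.inv e :: p) p₂ [] (by simp) (by simpa using hne) (by simp) hcl2
            have h4 := hle p hclp'
            simp only [List.nil_append, List.append_nil] at har h3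
            omega
          · simp only [List.cons_append, List.cons.injEq] at hw
            obtain ⟨h1, hw⟩ := hw
            subst h1
            rcases p₁ with _ | ⟨d, p₁⟩
            · rcases p with _ | ⟨d, α'⟩
              · exact absurd rfl hp
              simp only [List.nil_append, List.cons_append, List.cons.injEq] at hw
              obtain ⟨h1, hw⟩ := hw
              subst h1
              subst hw
              -- the pinch separates the two sides
              have hcl2 : S.Cl (S.inv e'' :: p₂) := by
                have := cl_compl (p₁ := [S.inv e'']) (p := S.inv e' :: α') (p₂ := p₂)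
                  (by simpa using hclu) hclp
                simpa using this
              have hins : ∀ β β', S.Cl (S.inv e :: (β ++ β')) → S.Cl (S.inv e' :: β) →
                  S.ar (S.inv e :: (β ++ β')) ≤
                    S.ar (S.inv e' :: β) + S.ar (S.inv e'' :: β') + 1 := by
                intro β β' h1 h2
                have h3 := hle _ h1
                have h4 : S.Cl (S.inv e'' :: S.inv e' :: (β ++ β')) := by
                  have := cl_tri ht (a := []) (b := β ++ β') (by simpa using h1)
                  simpa using this
                have h5 := A5 [S.inv e''] β' (S.inv e' :: β) (by simpa using h4) h2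
                simp only [List.cons_append, List.nil_append] at h5
                omega
              have hsum : S.ar (S.inv e' :: α') + S.ar (S.inv e'' :: p₂) = m := by
                have h1 := hins α' p₂ hcl hclp
                simp only [List.cons_append, List.nil_append] at har
                omega
              have hpf1 : S.PF (S.inv e' :: α') := by
                by_contra hno
                obtain ⟨r₁, r, r₂, h1, hr, hclr, h2⟩ := pinch_of_not_pf hclp hno
                subst h1
                have h3 := hpf (S.inv e :: r₁) r (r₂ ++ p₂) (by simp) hr (by simp) hclr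
                have h4 : S.Cl (S.inv e :: (r₁ ++ (r₂ ++ p₂))) := by
                  have := cl_compl (p₁ := S.inv e :: r₁) (p := r) (p₂ := r₂ ++ p₂)
                    (by simpa using hcl) hclr
                  simpa using this
                have h5 : S.Cl (S.inv e' :: (r₁ ++ r₂)) := by
                  have := cl_compl (p₁ := S.inv e' :: r₁) (p := r) (p₂ := r₂)
                    (by simpa using hclp) hclr
                  simpa using this
                have h6 := hins (r₁ ++ r₂) p₂ (by simpa using h4) h5
                simp only [List.cons_append, List.append_assoc] at h3 h6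
                simp only [List.append_assoc] at hn hm
                simp only [List.append_assoc] at h2 hsum
                omega
              have hpf2 : S.PF (S.inv e'' :: p₂) := by
                by_contra hno
                obtain ⟨r₁, r, r₂, h1, hr, hclr, h2⟩ := pinch_of_not_pf hcl2 hno
                subst h1
                have h3 := hpf (S.inv e :: (α' ++ r₁)) r r₂ (by simp) hr (by simp) hclr
                have h4 : S.Cl (S.inv e :: (α' ++ (r₁ ++ r₂))) := by
                  have := cl_compl (p₁ := S.inv e :: (α' ++ r₁)) (p := r) (p₂ := r₂)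
                    (by simpa using hcl) hclr
                  simpa using this
                have h6 := hins α' (r₁ ++ r₂) h4 hclp
                simp only [List.cons_append, List.append_assoc] at h3 h6
                simp only [List.append_assoc] at hn hm
                simp only [List.append_assoc] at h2 hsum
                omega
              obtain ⟨X', Y', J', I', hN1⟩ := ih _ (by omega) e' α' rfl hclp hpf1
              obtain ⟨X'', Y'', J'', I'', hN2⟩ := ih _ (by omega) e'' p₂ rfl hcl2 hpf2
              have h3 : n = S.ar (S.inv e' :: α') + S.ar (S.inv e'' :: p₂) + 1 := by omega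
              rw [h3]
              exact ⟨_, _, _, _, NS.tb ht' hN1 hN2⟩
            · simp only [List.cons_append, List.cons.injEq] at hw
              obtain ⟨h1, hw⟩ := hw
              subst h1
              subst hw
              exfalso
              have h3 := hpf (S.inv e :: p₁) p p₂ (by simp) hp (by simp) hclp
              have h4 : S.Cl (S.inv e :: (p₁ ++ p₂)) := by
                have := cl_compl (p₁ := S.inv e :: p₁) (p := p) (p₂ := p₂)
                  (by simpa using hcl) hclp
                simpa using this
              have h5 := hle _ h4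
              simp only [List.cons_append] at h3 har
              omega
  intro e α hcl hpf
  exact main _ e α rfl hcl hpf

end Pool.Agent.ABA.B.H10
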