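import Pool.Agent.Helper52_ABA.LStmts

/-!
# ABL, module PEEL: peeling the triangles at a boundary vertex
-/

set_option autoImplicit false

namespace Pool.Agent.ABA.B.H10

open Pool.Agent.ABA.B Pool.Agent.ABA.B.TG

variable {V E : Type} {S : TG V E}

theorem tri3 {e e' e'' : E} (h : S.Tri e e' e'') : S.Tri (S.inv e) (S.inv e'') (S.inv e') := by
  have := S.tri_rot (S.tri_swap h)
  simpa using this

theorem tri4 {e e' e'' : E} (h : S.Tri e e' e'') : S.Tri (S.inv e'') (S.inv e) e' := by
  have := S.tri_swap (tri3 h)
  simpa using this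

theorem tri5 {e e' e'' : E} (h : S.Tri e e' e'') : S.Tri e'' (S.inv e') e := by
  have := S.tri_swap (S.tri_rot h)
  simpa using this

theorem circ_append {w φ₁ : List E} (h : S.Circ w φ₁) {a b c : E} {v φ₂ : List E}
    (ha : w.getLast? = some a) (ht : S.Tri b a c) (h2 : S.Circ (b :: v) φ₂) :
    S.Circ (w ++ b :: v) (φ₁ ++ c :: φ₂) := by
  induction h with
  | one d =>
    simp only [List.getLast?_singleton, Option.some.injEq] at ha
    subst ha
    exact Circ.cons ht h2
  | cons ht' h' ih =>
    rw [List.getLast?_cons_cons] at ha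
    exact Circ.cons ht' (ih ha)

theorem circ_reverse {v φ : List E} (h : S.Circ v φ) : S.Circ v.reverse (S.rv φ) := by
  induction h with
  | one d => simpa using Circ.one d
  | @cons a b c v φ ht h' ih =>
    have h1 : (b :: v).reverse.getLast? = some b := by simp
    have h2 := circ_append ih h1 (S.tri_swap ht) (Circ.one a)
    simpa using h2

theorem ns_shape {e : E} {α : List E} {n : ℕ} {X Y : List E} {J I : List (List E)}
    (h : S.NS e α n X Y J I) : (∃ X₁, X = e :: X₁) ∧ (∃ Y₁, Y = S.inv e :: Y₁) ∧
      J.length + 1 = α.length := by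
  induction h with
  | triv e => exact ⟨⟨_, rfl⟩, ⟨_, rfl⟩, rfl⟩
  | tb ht h1 h2 ih1 ih2 =>
    refine ⟨⟨_, rfl⟩, ⟨_, rfl⟩, ?_⟩
    have h3 := ih1.2.2
    have h4 := ih2.2.2
    simp only [List.length_append, List.length_cons]
    omega
  | ta ht h1 hne ih =>
    refine ⟨⟨_, rfl⟩, ⟨_, rfl⟩, ?_⟩
    have h3 := ih.2.2
    simp only [List.length_append, List.length_cons, List.length_nil] at h3
    omega

theorem ns_D (hI : InsStmt) (hR : RotStmt) {e : E} {α : List E} {n : ℕ} {X Y : List E}
    {J I : List (List E)} (h : S.NS e α n X Y J I) : S.D (S.tgt e) (S.inv e :: α) n := by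
  induction h with
  | triv e =>
    have := D.br (S := S) (e := S.inv e) (D.nil _) (D.nil _)
    simpa using this
  | @tb e e' e'' α' α'' n' n'' X' Y' X'' Y'' J' I' J'' I'' ht h1 h2 ih1 ih2 =>
    have h3 : S.IsP (S.tgt e'') [S.inv e''] (S.tgt e') := by
      refine ⟨rfl, ?_⟩
      rw [tgt_inv]
      exact Tri.mid' ht
    have h4 := hI V E S _ _ [S.inv e''] α'' (S.inv e' :: α') n'' n' (by simpa using ih2) h3 ih1
    rw [Tri.tgt' ht] at h4
    have h5 := D.tri (tri3 ht) (a := α' ++ α'') (n := n'' + n') (by simpa using h4)
    rw [show n' + n'' + 1 = n'' + n' + 1 by omega]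
    simpa using h5
  | @ta e e' e'' α n X Y v J I ht h1 hne ih =>
    have h3 := hR V E S _ (S.tgt e) (S.inv e' :: α) [S.inv e''] n (by simpa using ih) (by
      have h4 := ih.isP
      rw [← List.cons_append, isP_append] at h4
      obtain ⟨z, h5, h6⟩ := h4
      have h7 : z = S.tgt e := by
        rw [← Tri.tgt' ht]
        exact h6.1.symm
      rw [← h7]; exact h5)
    exact D.tri (tri3 ht) (by simpa using h3)

theorem isP_snoc {x y : V} {w : List E} {c : E} (h : S.IsP x (w ++ [c]) y) :
    S.IsP x w (S.src c) := by
  rw [isP_append] at h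
  obtain ⟨z, h1, h2⟩ := h
  rw [h2.1]; exact h1

theorem rot_last (hR : RotStmt) {x : V} {w : List E} {c : E} {n : ℕ} (h : S.D x (w ++ [c]) n) :
    S.D (S.src c) (c :: w) n := by
  have := hR V E S x _ w [c] n h (isP_snoc h.isP)
  simpa using this

theorem rot_first (hR : RotStmt) {x : V} {w : List E} {c : E} {n : ℕ} (h : S.D x (c :: w) n) :
    S.D (S.tgt c) (w ++ [c]) n := by
  have h1 : S.IsP x [c] (S.tgt c) := ⟨h.isP.1, rfl⟩
  have := hR V E S x _ [c] w n (by simpa using h) h1
  simpa using this

theorem peel (hI : InsStmt) (hR : RotStmt) (_hC : ColStmt) (_hV : RevStmt) : PeelStmt := by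
  intro V E S e α n X Y J I h
  suffices H : (∀ b α₂, α = b :: α₂ → X.getLast? = some b ∧ ∃ φ, S.Circ X φ ∧ φ.length ≤ n ∧
        S.D (S.tgt e) (φ ++ α₂) (n - φ.length)) ∧
      (∀ a α₁, α = α₁ ++ [a] → ∃ φ, S.Circ Y φ ∧ φ.length ≤ n ∧
        S.D (S.src e) (α₁ ++ S.rv φ) (n - φ.length)) ∧
      (∀ α₁ a b α₂ v, α = α₁ ++ a :: b :: α₂ → J[α₁.length]? = some v →
        v.getLast? = some b ∧ ∃ φ, S.Circ v φ ∧ φ.length ≤ n ∧
          S.D (S.tgt e) (S.inv e :: α₁ ++ φ ++ α₂) (n - φ.length)) from
    ⟨fun b α₂ hb => (H.1 b α₂ hb).2, H.2.1,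
      fun α₁ a b α₂ v h1 h2 => (H.2.2 α₁ a b α₂ v h1 h2).2⟩
  induction h with
  | triv e =>
    refine ⟨?_, ?_, ?_⟩
    · intro b α₂ hb
      simp only [List.cons.injEq] at hb
      obtain ⟨h1, h2⟩ := hb
      subst h1
      subst h2
      exact ⟨by simp, [], Circ.one _, by simp, by simpa using D.nil _⟩
    · intro a α₁ ha
      have h1 : [] ++ [e] = α₁ ++ [a] := by simpa using ha
      obtain ⟨h2, h3⟩ := List.append_inj' h1 rfl
      subst h2
      exact ⟨[], Circ.one _, by simp, by simpa using D.nil _⟩
    · intro α₁ a b α₂ v h1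
      have := congrArg List.length h1
      simp only [List.length_append, List.length_cons, List.length_nil] at this
      omega
  | @tb e e' e'' α' α'' n' n'' X' Y' X'' Y'' J' I' J'' I'' ht h1 h2 ih1 ih2 =>
    obtain ⟨⟨X₁, hX₁⟩, ⟨Y₁, hY₁⟩, hJ1⟩ := ns_shape h1
    obtain ⟨⟨X₂, hX₂⟩, ⟨Y₂, hY₂⟩, hJ2⟩ := ns_shape h2
    have hD1 := ns_D hI hR h1
    have hD2 := ns_D hI hR h2
    obtain ⟨p1, p2, p3⟩ := ih1
    obtain ⟨q1, q2, q3⟩ := ih2
    have hp : S.IsP (S.tgt e'') [S.inv e''] (S.tgt e') := by
      refine ⟨rfl, ?_⟩
      rw [tgt_inv]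
      exact Tri.mid' ht
    -- insertion behind `inv e''`
    have ins : ∀ (β γ : List E) (k l : ℕ), S.D (S.tgt e'') (S.inv e'' :: β) k →
        S.D (S.tgt e') γ l → S.D (S.tgt e) (S.inv e'' :: (γ ++ β)) (k + l) := by
      intro β γ k l h3 h4
      have h5 := hI V E S _ _ [S.inv e''] β γ k l (by simpa using h3) hp h4
      rw [Tri.tgt' ht] at h5
      simpa using h5
    refine ⟨?_, ?_, ?_⟩
    · intro b α₂ hb
      cases α' with
      | nil => simp at hJ1
      | cons b' α₂' =>
        simp only [List.cons_append, List.cons.injEq] at hb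
        obtain ⟨hb1, hb2⟩ := hb
        subst hb1
        subst hb2
        obtain ⟨hl, φ, hc, hφ, hd⟩ := p1 b' α₂' rfl
        refine ⟨?_, S.inv e'' :: φ, ?_, ?_, ?_⟩
        · rw [hX₁] at hl ⊢
          rw [List.getLast?_cons_cons]; exact hl
        · rw [hX₁] at hc ⊢
          exact Circ.cons (S.tri_swap ht) hc
        · simp only [List.length_cons]; omega
        · have h3 := ins α'' (φ ++ α₂') n'' (n' - φ.length) hD2 hd
          have h4 : n' + n'' + 1 - (S.inv e'' :: φ).length = n'' + (n' - φ.length) := by
            simp only [List.length_cons]; omega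
          rw [h4]
          simpa using h3
    · intro a α₁ ha
      rcases List.eq_nil_or_concat α'' with h0 | ⟨α₁'', a', h0⟩
      · subst h0; simp at hJ2
      · rw [List.concat_eq_append] at h0
        subst h0
        rw [← List.append_assoc] at ha
        obtain ⟨h3, h4⟩ := List.append_inj' ha rfl
        simp only [List.cons.injEq, and_true] at h4
        subst h3
        subst h4
        obtain ⟨φ, hc, hφ, hd⟩ := q2 a' α₁'' rfl
        refine ⟨e' :: φ, ?_, ?_, ?_⟩
        · rw [hY₂] at hc ⊢
          exact Circ.cons (tri4 ht) hc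
        · simp only [List.length_cons]; omega
        · have h5 := rot_first hR hD1
          rw [tgt_inv] at h5
          have h6 : S.IsP (S.src e') α' (S.src e'') := by
            have := isP_snoc h5.isP
            rw [src_inv, ← Tri.mid' ht] at this
            exact this
          have h7 := hI V E S _ _ α' [S.inv e'] (α₁'' ++ S.rv φ) n' (n'' - φ.length) h5 h6 hd
          have h4 : n' + n'' + 1 - (e' :: φ).length = n' + (n'' - φ.length) := by
            simp only [List.length_cons]; omega
          rw [h4, ← Tri.src' ht]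
          simpa using h7
    · intro α₁ a b α₂ v hα hv
      rcases lt_trichotomy α₁.length J'.length with hlt | heq | hgt
      · -- inside the first disc
        rw [List.getElem?_append_left hlt] at hv
        have h3 : (α₁ ++ [a, b]).length ≤ α'.length := by
          simp only [List.length_append, List.length_cons, List.length_nil]; omega
        have h4 : α₁ ++ [a, b] <+: α' := by
          have h5 : α' <+: α' ++ α'' := List.prefix_append _ _
          have h6 : α₁ ++ [a, b] <+: α' ++ α'' := by
            rw [hα]
            exact ⟨α₂, by simp⟩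
          exact List.prefix_of_prefix_length_le h6 h5 h3
        obtain ⟨α₂', h5⟩ := h4
        subst h5
        have h6 : α₂ = α₂' ++ α'' := by
          simpa using hα.symm
        subst h6
        obtain ⟨hl, φ, hc, hφ, hd⟩ := p3 α₁ a b α₂' v (by simp) hv
        refine ⟨hl, φ, hc, by omega, ?_⟩
        have h7 := ins α'' (S.inv e' :: α₁ ++ φ ++ α₂') n'' (n' - φ.length) hD2 hd
        have h8 := D.tri (tri3 ht) (a := α₁ ++ φ ++ α₂' ++ α'') (n := n'' + (n' - φ.length))
          (by simpa using h7)
        have h4 : n' + n'' + 1 - φ.length = n'' + (n' - φ.length) + 1 := by omega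
        rw [h4]
        simpa using h8
      · -- the middle vertex
        have h3 : α'.length = (α₁ ++ [a]).length := by
          simp only [List.length_append, List.length_cons, List.length_nil]; omega
        have h4 : α' ++ α'' = (α₁ ++ [a]) ++ (b :: α₂) := by rw [hα]; simp
        obtain ⟨h5, h6⟩ := List.append_inj h4 h3
        subst h5
        subst h6
        rw [heq, List.getElem?_append_right le_rfl] at hv
        simp only [Nat.sub_self, List.getElem?_cons_zero, Option.some.injEq] at hv
        subst hv
        obtain ⟨φY, hcY, hφY, hdY⟩ := p2 a α₁ rfl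
        obtain ⟨hl, φX, hcX, hφX, hdX⟩ := q1 b α₂ rfl
        refine ⟨?_, S.rv φY ++ e :: φX, ?_, ?_, ?_⟩
        · rw [hX₂] at hl ⊢
          rw [List.getLast?_append, hl]; rfl
        · have h7 := circ_reverse hcY
          rw [hX₂] at hcX ⊢
          refine circ_append h7 (a := S.inv e') ?_ (tri5 ht) hcX
          rw [hY₁]; simp
        · simp only [List.length_append, List.length_cons, rv_length]; omega
        · rw [Tri.src' ht] at hdY
          rw [Tri.tgt' ht] at hdX
          have h7 := D.br (e := S.inv e) (by simpa using hdY) hdX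
          have h8 : n' + n'' + 1 - (S.rv φY ++ e :: φX).length =
              (n' - φY.length) + (n'' - φX.length) := by
            simp only [List.length_append, List.length_cons, rv_length]; omega
          rw [h8]
          simpa using h7
      · -- inside the second disc
        have h3 : α'.length ≤ α₁.length := by omega
        have h4 : α' <+: α₁ := by
          have h5 : α' <+: α' ++ α'' := List.prefix_append _ _
          have h6 : α₁ <+: α' ++ α'' := by
            rw [hα]
            exact List.prefix_append _ _
          exact List.prefix_of_prefix_length_le h5 h6 h3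
        obtain ⟨α₁'', h5⟩ := h4
        subst h5
        have h6 : α'' = α₁'' ++ a :: b :: α₂ := by
          have h7 : α' ++ α'' = α' ++ (α₁'' ++ a :: b :: α₂) := by rw [hα]; simp
          exact List.append_cancel_left h7
        subst h6
        have h7 : J''[α₁''.length]? = some v := by
          rw [List.getElem?_append_right (by omega)] at hv
          have h8 : (α' ++ α₁'').length - J'.length = α₁''.length + 1 := by
            simp only [List.length_append]; omega
          rw [h8, List.getElem?_cons_succ] at hv
          exact hv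
        obtain ⟨hl, φ, hc, hφ, hd⟩ := q3 α₁'' a b α₂ v rfl h7
        refine ⟨hl, φ, hc, by omega, ?_⟩
        have h8 := ins (α₁'' ++ φ ++ α₂) (S.inv e' :: α') (n'' - φ.length) n'
          (by simpa using hd) hD1
        have h9 := D.tri (tri3 ht) (a := α' ++ (α₁'' ++ φ ++ α₂)) (n := n'' - φ.length + n')
          (by simpa using h8)
        have h4 : n' + n'' + 1 - φ.length = n'' - φ.length + n' + 1 := by omega
        rw [h4]
        simpa using h9
  | @ta e e' e'' α n X Y v J I ht h1 hne ih =>
    obtain ⟨⟨X₁, hX₁⟩, ⟨Y₁, hY₁⟩, hJ1⟩ := ns_shape h1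
    obtain ⟨p1, p2, p3⟩ := ih
    simp only [List.length_append, List.length_cons, List.length_nil] at hJ1
    have hJ2 : J.length + 1 = α.length := by omega
    have hsrc : S.src (S.inv e'') = S.tgt e := S.tri_tgt ht
    refine ⟨?_, ?_, ?_⟩
    · intro b α₂ hb
      subst hb
      obtain ⟨hl, φ, hc, hφ, hd⟩ := p1 b (α₂ ++ [S.inv e'']) (by simp)
      refine ⟨?_, S.inv e'' :: φ, ?_, ?_, ?_⟩
      · rw [hX₁] at hl ⊢
        rw [List.getLast?_cons_cons]; exact hl
      · rw [hX₁] at hc ⊢
        exact Circ.cons (S.tri_swap ht) hc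
      · simp only [List.length_cons]; omega
      · have h3 : n + 1 - (S.inv e'' :: φ).length = n - φ.length := by
          simp only [List.length_cons]; omega
        rw [h3]
        have h4 := rot_last hR (w := φ ++ α₂) (c := S.inv e'') (by simpa using hd)
        rw [hsrc] at h4
        simpa using h4
    · intro a α₁ ha
      subst ha
      have h3 : α₁.length = J.length := by
        simp only [List.length_append, List.length_cons, List.length_nil] at hJ2
        omega
      obtain ⟨hl, φ, hc, hφ, hd⟩ := p3 α₁ a (S.inv e'') [] v (by simp) (by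
        rw [h3, List.getElem?_append_right le_rfl]; simp)
      refine ⟨e' :: S.rv φ, ?_, ?_, ?_⟩
      · have h4 := circ_reverse hc
        rcases List.eq_nil_or_concat v with h0 | ⟨v', c, h0⟩
        · subst h0; simp at hl
        · rw [List.concat_eq_append] at h0
          subst h0
          simp only [List.getLast?_append, List.getLast?_singleton, Option.some_or,
            Option.some.injEq] at hl
          subst hl
          simp only [List.reverse_append, List.reverse_cons, List.reverse_nil, List.nil_append,
            List.cons_append] at h4 ⊢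
          exact Circ.cons (tri4 ht) h4
      · simp only [List.length_cons, rv_length]; omega
      · have h5 : n + 1 - (e' :: S.rv φ).length = n - φ.length := by
          simp only [List.length_cons, rv_length]; omega
        rw [h5]
        have h6 := rot_first hR (c := S.inv e') (w := α₁ ++ φ) (by simpa using hd)
        rw [tgt_inv, Tri.src' ht] at h6
        simpa using h6
    · intro α₁ a b α₂ w hα hw
      subst hα
      obtain ⟨hl, φ, hc, hφ, hd⟩ := p3 α₁ a b (α₂ ++ [S.inv e'']) w (by simp) (by
        rw [List.getElem?_append_left]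
        · exact hw
        · exact (List.getElem?_eq_some_iff.1 hw).1)
      refine ⟨hl, φ, hc, by omega, ?_⟩
      have h3 := rot_last hR (w := S.inv e' :: α₁ ++ φ ++ α₂) (c := S.inv e'')
        (by simpa using hd)
      rw [hsrc] at h3
      have h4 := D.tri (tri3 ht) (a := α₁ ++ φ ++ α₂) (n := n - φ.length) (by simpa using h3)
      have h5 : n + 1 - φ.length = n - φ.length + 1 := by omega
      rw [h5]
      simpa using h4

end Pool.Agent.ABA.B.H10
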